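import Pool.Agent.helper32.ST.ZFin

/-!
# Optimal online construction of two-dimensional suffix trees

Two fixed word RAM programs `init` and `row` maintain the two-dimensional suffix tree of the rows read so
far of an `n × n` matrix over an integer alphabet, in total time `O(n²)`; this is optimal.

Definitions: `ST/SDef.lean` (Lcharacters, Lstrings, the compacted trie, `SufTree`), `ST/IDef.lean` (the
word RAM), `ST/ZDef.lean` (`rowOf`, `RowSent`, `vread`), all in `Pool/Agent/helper32`.

Idea.  For every cell `c` the algorithm computes the largest square with lower right corner `c` which
has an earlier occurrence, together with the name (first occurrence) of that square; the candidates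
for a square are found from the names of the squares at the three neighbouring cells, either as
the square following the first occurrence of the smaller square on its diagonal, or in a direct
address table of the other children, so that the number of trials telescopes to `O(n²)`.  The places in
the tree are found with a linked list of the visited squares in a fixed order, in which a two-three
tree finds the nearest branching square on marking, in amortised constant time.
-/

namespace Pool.Agent.Results.MP_4b2925_lc.OnlineSuffixTree

open ST2

/-- There are word RAM programs `init` and `row` and a constant `C` such that for every `d` there is an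
`e` with: for all `n ≥ 1` and all `n × n` matrices `M` with entries at most `(n+1)^d` whose rows end with
sentinels, started on any memory of words below `(n+1)^e`, the program `init` (reading `n`) followed by
`n` executions of `row`, the `t`-th of which reads exactly the row `t` of `M`, uses only words below
`(n+1)^e`, takes at least `n²` and at most `C n²` steps in total, and after the `t`-th execution of `row` the
memory holds the two-dimensional suffix tree of the first `t` rows, for every `t`. -/
theorem result : ∃ (init row : List Instr) (C : ℕ), ∀ d : ℕ, ∃ e : ℕ,
    ∀ (n : ℕ) (M : ℕ → ℕ → ℕ), 1 ≤ n →
      (∀ i j, 1 ≤ i → i ≤ n → 1 ≤ j → j ≤ n → M i j ≤ (n + 1) ^ d) → RowSent n M →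
      ∀ m0 : ℕ → ℕ, (∀ a, m0 a < (n + 1) ^ e) →
        ∃ (m : ℕ → ℕ → ℕ) (T : ℕ → ℕ),
          Exec ((n + 1) ^ e) init m0 [n] (m 0) [] (T 0) ∧
          (∀ t, 1 ≤ t → t ≤ n →
            Exec ((n + 1) ^ e) row (m (t - 1)) (rowOf n M t) (m t) [] (T t) ∧
            SufTree n M t (vread (m t) 384) (fun v => vread (m t) (64 * v + 15))
              (fun v => vread (m t) (64 * v + 16)) (fun v => vread (m t) (64 * v + 17))
              (fun v => vread (m t) (64 * v + 19)) (fun v => vread (m t) (64 * v + 20))) ∧
          n ^ 2 ≤ ∑ t ∈ Finset.range (n + 1), T t ∧
          ∑ t ∈ Finset.range (n + 1), T t ≤ C * n ^ 2 :=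
  online_suffix_tree

end Pool.Agent.Results.MP_4b2925_lc.OnlineSuffixTree
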